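import Pool.Agent.Run7.h198.QI.Defs

set_option autoImplicit false

/-!
Project QI (helper198, MP_eaaa35_co), piece EXT.
-/

namespace Pool.Agent.Run7.h824.QI

open Finset Pool.Agent.Run7.h198.QI

theorem t_EXT : S_EXT := by
  intro m r w F hw hF
  let e : Fin m ↪ Fin (m + 2 * r) := ⟨fun a => ⟨a.1, by omega⟩, fun a b h => by
    have h1 := congrArg Fin.val h
    exact Fin.ext h1⟩
  let p : Fin r ↪ Fin (m + 2 * r) := ⟨fun i => ⟨m + i.1, by omega⟩, fun a b h => by
    have h1 := congrArg Fin.val h
    simp only at h1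
    exact Fin.ext (by omega)⟩
  let q : Fin r ↪ Fin (m + 2 * r) := ⟨fun i => ⟨m + r + i.1, by omega⟩, fun a b h => by
    have h1 := congrArg Fin.val h
    simp only at h1
    exact Fin.ext (by omega)⟩
  let P : Finset (Fin (m + 2 * r)) := (univ : Finset (Fin r)).map p
  let N : Finset (Fin (m + 2 * r)) := (univ : Finset (Fin r)).map q
  let g : Finset (Fin m) → Finset (Fin (m + 2 * r)) := fun A => A.map e ∪ P
  have hPc : P.card = r := by simp [P]
  have hNc : N.card = r := by simp [N]
  have hev : ∀ a : Fin m, (e a).val = a.val := fun a => rfl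
  have hpv : ∀ a : Fin r, (p a).val = m + a.val := fun a => rfl
  have hqv : ∀ a : Fin r, (q a).val = m + r + a.val := fun a => rfl
  have hmem : ∀ (A : Finset (Fin m)) (a : Fin m), e a ∈ g A ↔ a ∈ A := by
    intro A a
    constructor
    · intro h
      rcases mem_union.1 h with h | h
      · obtain ⟨b, hb, hb2⟩ := mem_map.1 h
        exact e.injective hb2 ▸ hb
      · obtain ⟨b, hb, hb2⟩ := mem_map.1 h
        have h1 := congrArg Fin.val hb2
        rw [hev, hpv] at h1
        omega
    · intro h
      exact mem_union_left _ (mem_map_of_mem e h)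
  have hP : ∀ A : Finset (Fin m), P ⊆ g A := fun A => subset_union_right
  have hN : ∀ (A : Finset (Fin m)) (x : Fin (m + 2 * r)), x ∈ N → x ∉ g A := by
    intro A x hx h
    obtain ⟨c, hc, rfl⟩ := mem_map.1 hx
    rcases mem_union.1 h with h | h
    · obtain ⟨b, hb, hb2⟩ := mem_map.1 h
      have h1 := congrArg Fin.val hb2
      rw [hev, hqv] at h1
      omega
    · obtain ⟨b, hb, hb2⟩ := mem_map.1 h
      have h1 := congrArg Fin.val hb2
      rw [hpv, hqv] at h1
      omega
  have hinj : Function.Injective g := by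
    intro A B h
    ext a
    rw [← hmem A, ← hmem B, h]
  refine ⟨F.image g, ?_, card_image_of_injective _ hinj⟩
  intro A' hA' B' hB' hne
  obtain ⟨A, hA, rfl⟩ := mem_image.1 hA'
  obtain ⟨B, hB, rfl⟩ := mem_image.1 hB'
  have hAB : A ≠ B := fun h => hne (h ▸ rfl)
  refine ⟨?_, ?_, ?_, ?_⟩
  · calc r = P.card := hPc.symm
      _ ≤ _ := card_le_card (subset_inter (hP A) (hP B))
  · calc r ≤ (A \ B).card := hF A hA B hB hAB
      _ = ((A \ B).map e).card := (card_map e).symm
      _ ≤ _ := by
        refine card_le_card fun x hx => ?_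
        obtain ⟨a, ha, rfl⟩ := mem_map.1 hx
        rw [mem_sdiff] at ha
        rw [mem_inter, mem_compl, hmem, hmem]
        exact ha
  · calc r ≤ (B \ A).card := hF B hB A hA hAB.symm
      _ = ((B \ A).map e).card := (card_map e).symm
      _ ≤ _ := by
        refine card_le_card fun x hx => ?_
        obtain ⟨a, ha, rfl⟩ := mem_map.1 hx
        rw [mem_sdiff] at ha
        rw [mem_inter, mem_compl, hmem, hmem]
        exact ⟨ha.2, ha.1⟩
  · calc r = N.card := hNc.symm
      _ ≤ _ := by
        refine card_le_card fun x hx => ?_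
        rw [mem_inter, mem_compl, mem_compl]
        exact ⟨hN A x hx, hN B x hx⟩

end Pool.Agent.Run7.h824.QI
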