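import Pool.Agent.Run7.h198.QI.Defs

set_option autoImplicit false

/-!
Project QI (helper198, MP_eaaa35_co), piece GS (construction of Graham and Sloane).
-/

namespace Pool.Agent.Run7.h824.QI

open Finset Pool.Agent.Run7.h198.QI Polynomial

/-- the polynomial with the roots in `A` -/
noncomputable def PA (m q : ℕ) (A : Finset (Fin m)) : (ZMod q)[X] :=
  ∏ a ∈ A, (X - C ((a.val : ℕ) : ZMod q))

theorem PA_monic (m q : ℕ) (A : Finset (Fin m)) : (PA m q A).Monic :=
  monic_prod_of_monic _ _ fun _ _ => monic_X_sub_C _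

theorem PA_deg (m q : ℕ) [Fact q.Prime] (A : Finset (Fin m)) : (PA m q A).natDegree = A.card := by
  unfold PA
  rw [natDegree_prod_of_monic _ _ fun _ _ => monic_X_sub_C _]
  simp only [natDegree_X_sub_C, Finset.sum_const, smul_eq_mul, mul_one]

theorem sep (m w r q : ℕ) [Fact q.Prime] (hm : m ≤ q) (A B : Finset (Fin m)) (hA : A.card = w)
    (hB : B.card = w) (hne : A ≠ B)
    (hl : ∀ j : ℕ, j < r - 1 → (PA m q A).coeff (w - 1 - j) = (PA m q B).coeff (w - 1 - j)) :
    r ≤ (A \ B).card := by
  by_contra hcon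
  push Not at hcon
  set s := (A \ B).card with hs
  have h1 : s + (A ∩ B).card = w := by
    rw [hs, card_sdiff_add_card_inter, hA]
  have hs1 : 1 ≤ s := by
    by_contra h0
    have h2 : (A \ B).card = 0 := by omega
    rw [card_eq_zero, sdiff_eq_empty_iff_subset] at h2
    exact hne (eq_of_subset_of_card_le h2 (by omega))
  have hD : PA m q A - PA m q B = 0 := by
    refine eq_zero_of_dvd_of_degree_lt (p := PA m q (A ∩ B)) ?_ ?_
    · refine dvd_sub ?_ ?_
      · exact prod_dvd_prod_of_subset _ _ _ inter_subset_left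
      · exact prod_dvd_prod_of_subset _ _ _ inter_subset_right
    · rw [degree_eq_natDegree (PA_monic m q (A ∩ B)).ne_zero, PA_deg]
      rw [degree_lt_iff_coeff_zero]
      intro i hi
      rw [coeff_sub, sub_eq_zero]
      rcases lt_trichotomy i w with h | h | h
      · have h3 := hl (w - 1 - i) (by omega)
        have h4 : w - 1 - (w - 1 - i) = i := by omega
        rw [h4] at h3
        exact h3
      · have h3 : (PA m q A).coeff w = 1 := by
          have := (PA_monic m q A).coeff_natDegree
          rwa [PA_deg, hA] at this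
        have h4 : (PA m q B).coeff w = 1 := by
          have := (PA_monic m q B).coeff_natDegree
          rwa [PA_deg, hB] at this
        rw [h, h3, h4]
      · rw [coeff_eq_zero_of_natDegree_lt (by rw [PA_deg, hA]; exact h),
          coeff_eq_zero_of_natDegree_lt (by rw [PA_deg, hB]; exact h)]
  obtain ⟨a, ha⟩ : (A \ B).Nonempty := card_pos.1 (by omega)
  rw [mem_sdiff] at ha
  have h5 : (PA m q A).eval ((a.val : ℕ) : ZMod q) = 0 := by
    unfold PA
    rw [eval_prod]
    refine prod_eq_zero ha.1 ?_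
    simp
  rw [sub_eq_zero] at hD
  rw [hD] at h5
  unfold PA at h5
  rw [eval_prod, prod_eq_zero_iff] at h5
  obtain ⟨b, hb, hb2⟩ := h5
  rw [eval_sub, eval_X, eval_C, sub_eq_zero] at hb2
  have h6 := congrArg ZMod.val hb2
  rw [ZMod.val_cast_of_lt (lt_of_lt_of_le a.2 hm), ZMod.val_cast_of_lt (lt_of_lt_of_le b.2 hm)] at h6
  have h7 : a = b := Fin.ext h6
  exact ha.2 (h7 ▸ hb)

theorem t_GS : S_GS := by
  intro m w r q hr hq hm
  have : Fact q.Prime := ⟨hq⟩
  have : NeZero q := ⟨hq.ne_zero⟩
  let S : Finset (Finset (Fin m)) := powersetCard w univ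
  let lab : Finset (Fin m) → (Fin (r - 1) → ZMod q) := fun A j => (PA m q A).coeff (w - 1 - j.val)
  have hScard : S.card = m.choose w := by
    simp [S, card_powersetCard]
  obtain ⟨l, hl⟩ : ∃ l : Fin (r - 1) → ZMod q,
      m.choose w ≤ (S.filter fun A => lab A = l).card * q ^ (r - 1) := by
    by_contra hcon
    push Not at hcon
    have h1 : S.card = ∑ l : Fin (r - 1) → ZMod q, (S.filter fun A => lab A = l).card :=
      card_eq_sum_card_fiberwise fun _ _ => mem_coe.2 (mem_univ _)
    have h2 : ∑ l : Fin (r - 1) → ZMod q, (S.filter fun A => lab A = l).card * q ^ (r - 1) <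
        ∑ _l : Fin (r - 1) → ZMod q, m.choose w :=
      sum_lt_sum_of_nonempty univ_nonempty fun l _ => hcon l
    rw [← sum_mul, ← h1, sum_const, card_univ, Fintype.card_fun, ZMod.card, Fintype.card_fin,
      smul_eq_mul, hScard, mul_comm] at h2
    exact lt_irrefl _ h2
  refine ⟨S.filter fun A => lab A = l, ?_, ?_, hl⟩
  · intro A hA
    rw [mem_filter] at hA
    exact (mem_powersetCard.1 hA.1).2
  · intro A hA B hB hne
    rw [mem_filter] at hA hB
    refine sep m w r q hm A B (mem_powersetCard.1 hA.1).2 (mem_powersetCard.1 hB.1).2 hne ?_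
    intro j hj
    have h1 := congrFun (hA.2.trans hB.2.symm) ⟨j, hj⟩
    exact h1

end Pool.Agent.Run7.h824.QI
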